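import Mathlib
import Pool.Agent.H.MP_0d317a_lc.C

set_option autoImplicit false

namespace Pool.Agent.Results.MP_0d317a_lc.No

open Pool.Agent.H.MP_0d317a_lc

theorem result (hd : H.MP_2e4b78_lc.Dia) : ∃ U V : Ultrafilter ℕ, (∀ n, {n} ∉ U) ∧ (∀ n, {n} ∉ V) ∧
    ¬ Tk Fc (Sup U) ∧ ¬ Tk Fc (Sup V) ∧ Tk Fc (Sup (Fub U V)) :=
  let ⟨U, V, h⟩ := main hd
  ⟨U, V, h.1, h.2.1, h.2.2.1, h.2.2.2.1, h.2.2.2.2.1⟩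

end Pool.Agent.Results.MP_0d317a_lc.No
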